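import Pool.Agent.Helper42.KS.Goals

/-! Weyl differencing. -/

set_option autoImplicit false

open Finset Polynomial

namespace Pool.Agent.Helper42.KS.PkDIFF

theorem ee_add (a b : ℝ) : ee (a + b) = ee a * ee b := by
  unfold ee
  rw [← Complex.exp_add]
  congr 1
  push_cast
  ring

theorem norm_ee (a : ℝ) : ‖ee a‖ = 1 := by
  unfold ee
  exact Complex.norm_exp_ofReal_mul_I _

theorem ee_zero : ee 0 = 1 := by
  simp [ee]

theorem ee_int (n : ℤ) : ee n = 1 := by
  unfold ee
  rw [Complex.exp_eq_one_iff]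
  exact ⟨n, by push_cast; ring⟩

theorem conj_ee (a : ℝ) : (starRingEnd ℂ) (ee a) = ee (-a) := by
  unfold ee
  rw [← Complex.exp_conj]
  congr 1
  rw [map_mul, Complex.conj_ofReal, Complex.conj_I]
  push_cast
  ring

theorem ee_nat_mul (a : ℝ) (n : ℕ) : ee (n * a) = ee a ^ n := by
  induction n with
  | zero => simp [ee_zero]
  | succ n ih =>
    rw [pow_succ, ← ih, ← ee_add]
    congr 1
    push_cast
    ring

theorem norm_ee_sub_one (c : ℝ) : 4 * |c - round c| ≤ ‖ee c - 1‖ := by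
  have h1 : ee c = ee (c - round c) := by
    have h2 : c = (c - round c) + ((round c : ℤ) : ℝ) := by ring
    conv_lhs => rw [h2]
    rw [ee_add, ee_int, mul_one]
  rw [h1]
  set t := c - round c with ht
  have h3 : |t| ≤ 1 / 2 := abs_sub_round c
  have h4 : ee t - 1 = Complex.exp (Complex.I * ((2 * Real.pi * t : ℝ) : ℂ)) - 1 := by
    unfold ee
    rw [mul_comm]
  rw [h4, Complex.norm_exp_I_mul_ofReal_sub_one]
  have hpi := Real.pi_pos
  have h5 : |Real.pi * t| ≤ Real.pi / 2 := by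
    rw [abs_mul, abs_of_pos hpi]
    nlinarith
  have h6 := Real.mul_abs_le_abs_sin h5
  have h7 : 2 * Real.pi * t / 2 = Real.pi * t := by ring
  rw [h7, Real.norm_eq_abs, abs_mul, abs_of_pos (by norm_num : (0 : ℝ) < 2)]
  rw [abs_mul, abs_of_pos hpi] at h6
  have h8 : 2 / Real.pi * (Real.pi * |t|) = 2 * |t| := by
    field_simp
  rw [h8] at h6
  linarith

/-- the sum -/
noncomputable def S (P : ℝ[X]) (u v : ℤ) : ℂ := ∑ x ∈ Finset.Ico u v, ee (P.eval (x : ℝ))

theorem S_triv (P : ℝ[X]) (u v : ℤ) (R : ℕ) (h : v - u ≤ R) : ‖S P u v‖ ≤ R := by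
  unfold S
  refine (norm_sum_le _ _).trans ?_
  simp only [norm_ee, sum_const, nsmul_eq_mul, mul_one, Int.card_Ico]
  have : (v - u).toNat ≤ R := by omega
  exact_mod_cast this

theorem sum_Ico_range (f : ℤ → ℂ) (u v : ℤ) :
    ∑ x ∈ Finset.Ico u v, f x = ∑ j ∈ range (v - u).toNat, f (u + j) := by
  symm
  refine Finset.sum_nbij' (fun j => u + (j : ℤ)) (fun x => (x - u).toNat) ?_ ?_ ?_ ?_ ?_
  · intro j hj
    simp only [Finset.mem_range, Finset.mem_Ico] at hj ⊢
    omega
  · intro x hx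
    simp only [Finset.mem_range, Finset.mem_Ico] at hx ⊢
    omega
  · intro j _
    simp
  · intro x hx
    simp only [Finset.mem_Ico] at hx
    omega
  · intro j _
    rfl

theorem lin (a b : ℝ) (u v : ℤ) (R : ℕ) (h : v - u ≤ R) (P : ℝ[X])
    (hP : ∀ x : ℤ, P.eval (x : ℝ) = a * x + b) : ‖S P u v‖ ≤ mn R a := by
  unfold mn
  split_ifs with h1
  · exact S_triv P u v R h
  · rw [not_le] at h1
    have hd : 0 < |a - round a| := by
      rcases (abs_nonneg (a - round a)).eq_or_lt with h2 | h2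
      · rw [← h2] at h1
        norm_num at h1
      · exact h2
    have h3 := norm_ee_sub_one a
    have h4 : ee a ≠ 1 := by
      intro h5
      rw [h5, sub_self, norm_zero] at h3
      linarith
    have h5 : S P u v = ee (a * u + b) * ((ee a ^ (v - u).toNat - 1) / (ee a - 1)) := by
      rw [← geom_sum_eq h4, Finset.mul_sum]
      unfold S
      rw [sum_Ico_range]
      refine Finset.sum_congr rfl fun j _ => ?_
      rw [hP, ← ee_nat_mul, ← ee_add]
      congr 1
      push_cast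
      ring
    rw [h5, norm_mul, norm_ee, one_mul, norm_div]
    have h6 : ‖ee a ^ (v - u).toNat - 1‖ ≤ 2 := by
      refine (norm_sub_le _ _).trans ?_
      rw [norm_pow, norm_ee, one_pow, norm_one]
      norm_num
    have h7 : 0 < ‖ee a - 1‖ := by linarith
    rw [div_le_div_iff₀ h7 (by positivity)]
    nlinarith [norm_nonneg (ee a ^ (v - u).toNat - 1)]

/-- the differenced polynomial -/
noncomputable def dP (P : ℝ[X]) (h : ℝ) : ℝ[X] := taylor h P - P

theorem dP_eval (P : ℝ[X]) (h x : ℝ) : (dP P h).eval x = P.eval (x + h) - P.eval x := by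
  unfold dP
  rw [eval_sub, taylor_eval]

theorem taylor_coeff_top (P : ℝ[X]) (n : ℕ) (hP : P.natDegree ≤ n) (h : ℝ) :
    (taylor h P).coeff n = P.coeff n := by
  rw [taylor_coeff]
  have h1 : (hasseDeriv n P).natDegree < 1 := by
    have := natDegree_hasseDeriv_le P n
    omega
  rw [eval_eq_sum_range' h1]
  simp [hasseDeriv_coeff]

theorem taylor_coeff_next (P : ℝ[X]) (n : ℕ) (hP : P.natDegree ≤ n + 1) (h : ℝ) :
    (taylor h P).coeff n = P.coeff n + (n + 1) * P.coeff (n + 1) * h := by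
  rw [taylor_coeff]
  have h1 : (hasseDeriv n P).natDegree < 2 := by
    have := natDegree_hasseDeriv_le P n
    omega
  rw [eval_eq_sum_range' h1, Finset.sum_range_succ, Finset.sum_range_one, hasseDeriv_coeff,
    hasseDeriv_coeff]
  have h2 : (1 + n).choose n = n + 1 := by
    rw [add_comm, Nat.choose_succ_self_right]
  rw [h2]
  simp only [Nat.zero_add, Nat.choose_self, Nat.cast_one, one_mul, pow_zero, mul_one, pow_one]
  rw [add_comm 1 n]
  push_cast
  ring

theorem dP_natDegree (P : ℝ[X]) (n : ℕ) (hP : P.natDegree ≤ n + 1) (h : ℝ) :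
    (dP P h).natDegree ≤ n := by
  rw [natDegree_le_iff_coeff_eq_zero]
  intro N hN
  unfold dP
  rw [coeff_sub, taylor_coeff_top P N (by omega), sub_self]

theorem dP_coeff (P : ℝ[X]) (n : ℕ) (hP : P.natDegree ≤ n + 1) (h : ℝ) :
    (dP P h).coeff n = (n + 1) * P.coeff (n + 1) * h := by
  unfold dP
  rw [coeff_sub, taylor_coeff_next P n hP]
  ring

theorem sq (P : ℝ[X]) (u v : ℤ) (R : ℕ) (h : v - u ≤ R) :
    ‖S P u v‖ ^ 2 ≤ ∑ t ∈ Finset.Ioo (-(R : ℤ)) R,
      ‖S (dP P t) (max u (u - t)) (min v (v - t))‖ := by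
  have h1 : ((‖S P u v‖ ^ 2 : ℝ) : ℂ) = ∑ t ∈ Finset.Ioo (-(R : ℤ)) R,
      S (dP P t) (max u (u - t)) (min v (v - t)) := by
    have h2 : ((‖S P u v‖ ^ 2 : ℝ) : ℂ) = S P u v * (starRingEnd ℂ) (S P u v) := by
      rw [Complex.mul_conj, Complex.normSq_eq_norm_sq]
    rw [h2, mul_comm]
    have h3 : (starRingEnd ℂ) (S P u v) = ∑ x ∈ Finset.Ico u v, ee (-(P.eval (x : ℝ))) := by
      unfold S
      rw [map_sum]
      refine Finset.sum_congr rfl fun x _ => conj_ee _
    rw [h3]
    unfold S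
    rw [Finset.sum_mul_sum]
    have h4 : ∀ x ∈ Finset.Ico u v, ∑ y ∈ Finset.Ico u v, ee (-(P.eval (x : ℝ))) *
        ee (P.eval (y : ℝ)) = ∑ t ∈ Finset.Ioo (-(R : ℤ)) R,
          if x + t ∈ Finset.Ico u v then ee ((dP P t).eval (x : ℝ)) else 0 := by
      intro x hx
      rw [← Finset.sum_filter]
      refine Finset.sum_nbij' (fun y => y - x) (fun t => x + t) ?_ ?_ ?_ ?_ ?_
      · intro y hy
        simp only [Finset.mem_filter, Finset.mem_Ioo, Finset.mem_Ico] at hx hy ⊢
        omega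
      · intro t ht
        exact (Finset.mem_filter.mp ht).2
      · intro y _
        simp
      · intro t _
        simp
      · intro y _
        rw [← ee_add, dP_eval]
        congr 1
        push_cast
        have h5 : (x : ℝ) + (y - x) = y := by ring
        rw [h5]
        ring
    rw [Finset.sum_congr rfl h4, Finset.sum_comm]
    refine Finset.sum_congr rfl fun t _ => ?_
    rw [← Finset.sum_filter]
    refine Finset.sum_congr ?_ fun _ _ => rfl
    ext x
    simp only [Finset.mem_filter, Finset.mem_Ico]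
    omega
  have h2 : ‖S P u v‖ ^ 2 = ‖((‖S P u v‖ ^ 2 : ℝ) : ℂ)‖ := by
    rw [Complex.norm_real, Real.norm_of_nonneg (by positivity)]
  rw [h2, h1]
  exact norm_sum_le _ _

theorem reindex (m : ℕ) (A : Finset ℤ) (F : ℝ → ℝ) :
    ∑ t ∈ A, ∑ k ∈ Fintype.piFinset (fun _ : Fin m => A), F ((t : ℝ) * ∏ i, (k i : ℝ))
      = ∑ k ∈ Fintype.piFinset (fun _ : Fin (m + 1) => A), F (∏ i, (k i : ℝ)) := by
  rw [← Finset.sum_product']
  refine Finset.sum_nbij' (fun p => (Fin.cons p.1 p.2 : Fin (m + 1) → ℤ))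
    (fun k => (k 0, Fin.tail k)) ?_ ?_ ?_ ?_ ?_
  · intro p hp
    rw [Finset.mem_product, Fintype.mem_piFinset] at hp
    rw [Fintype.mem_piFinset]
    intro i
    refine Fin.cases ?_ (fun j => ?_) i
    · simpa using hp.1
    · simpa using hp.2 j
  · intro k hk
    rw [Fintype.mem_piFinset] at hk
    rw [Finset.mem_product, Fintype.mem_piFinset]
    exact ⟨hk 0, fun j => hk j.succ⟩
  · intro p _
    simp
  · intro k _
    simp
  · intro p _
    rw [Fin.prod_univ_succ]
    simp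

theorem main (R : ℕ) (hR : 1 ≤ R) (m : ℕ) : ∀ P : ℝ[X], P.natDegree ≤ m + 1 → ∀ u v : ℤ,
    v - u ≤ R → ‖S P u v‖ ^ (2 ^ m) ≤ (2 * R : ℝ) ^ (2 ^ m - (m + 1)) *
      ∑ h ∈ Fintype.piFinset (fun _ : Fin m => Finset.Ioo (-(R : ℤ)) R),
        mn R ((m + 1).factorial * P.coeff (m + 1) * ∏ i, (h i : ℝ)) := by
  induction m with
  | zero =>
    intro P hP u v h
    have h1 : ∀ x : ℤ, P.eval (x : ℝ) = P.coeff 1 * x + P.coeff 0 := by
      intro x
      rw [eval_eq_sum_range' (show P.natDegree < 2 by omega), Finset.sum_range_succ,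
        Finset.sum_range_one]
      ring
    have h2 := lin (P.coeff 1) (P.coeff 0) u v R h P h1
    simpa using h2
  | succ m ih =>
    intro P hP u v h
    have hR' : (1 : ℝ) ≤ R := by exact_mod_cast hR
    set A := Finset.Ioo (-(R : ℤ)) R with hA
    have hcard : (A.card : ℝ) ≤ 2 * R := by
      rw [hA, Int.card_Ioo]
      have : ((R : ℤ) - -(R : ℤ) - 1).toNat ≤ 2 * R := by omega
      exact_mod_cast this
    have h1 := sq P u v R h
    have hpm : 2 ^ m = (2 ^ m - 1) + 1 := by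
      have := Nat.one_le_two_pow (n := m)
      omega
    have h2 : (∑ t ∈ A, ‖S (dP P t) (max u (u - t)) (min v (v - t))‖) ^ (2 ^ m) ≤
        (2 * R : ℝ) ^ (2 ^ m - 1) *
          ∑ t ∈ A, ‖S (dP P t) (max u (u - t)) (min v (v - t))‖ ^ (2 ^ m) := by
      have h3 := pow_sum_le_card_mul_sum_pow (s := A)
        (f := fun t : ℤ => ‖S (dP P t) (max u (u - t)) (min v (v - t))‖)
        (fun _ _ => norm_nonneg _) (2 ^ m - 1)
      rw [← hpm] at h3
      refine h3.trans (mul_le_mul_of_nonneg_right ?_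
        (Finset.sum_nonneg fun _ _ => by positivity))
      exact pow_le_pow_left₀ (Nat.cast_nonneg _) hcard _
    have h3 : ∀ t ∈ A, ‖S (dP P t) (max u (u - t)) (min v (v - t))‖ ^ (2 ^ m) ≤
        (2 * R : ℝ) ^ (2 ^ m - (m + 1)) *
          ∑ k ∈ Fintype.piFinset (fun _ : Fin m => A),
            mn R ((m + 2).factorial * P.coeff (m + 2) * ((t : ℝ) * ∏ i, (k i : ℝ))) := by
      intro t _
      refine (ih (dP P t) (dP_natDegree P (m + 1) hP t) _ _ ?_).trans (le_of_eq ?_)
      · have e1 : u ≤ max u (u - t) := le_max_left _ _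
        have e2 : min v (v - t) ≤ v := min_le_left _ _
        omega
      · congr 1
        refine Finset.sum_congr rfl fun k _ => ?_
        congr 1
        rw [dP_coeff P (m + 1) hP, Nat.factorial_succ (m + 1)]
        push_cast
        ring
    have h4 : ‖S P u v‖ ^ (2 ^ (m + 1)) = (‖S P u v‖ ^ 2) ^ (2 ^ m) := by
      rw [← pow_mul, pow_succ' 2 m]
    rw [h4]
    have h5 : 2 ^ m - 1 + (2 ^ m - (m + 1)) = 2 ^ (m + 1) - (m + 1 + 1) := by
      have : m + 1 ≤ 2 ^ m := Nat.lt_two_pow_self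
      have : 2 ^ (m + 1) = 2 * 2 ^ m := by ring
      omega
    calc (‖S P u v‖ ^ 2) ^ (2 ^ m)
        ≤ (∑ t ∈ A, ‖S (dP P t) (max u (u - t)) (min v (v - t))‖) ^ (2 ^ m) :=
          pow_le_pow_left₀ (by positivity) h1 _
      _ ≤ _ := h2
      _ ≤ (2 * R : ℝ) ^ (2 ^ m - 1) * ∑ t ∈ A, ((2 * R : ℝ) ^ (2 ^ m - (m + 1)) *
          ∑ k ∈ Fintype.piFinset (fun _ : Fin m => A),
            mn R ((m + 2).factorial * P.coeff (m + 2) * ((t : ℝ) * ∏ i, (k i : ℝ)))) :=
          mul_le_mul_of_nonneg_left (Finset.sum_le_sum h3) (by positivity)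
      _ = (2 * R : ℝ) ^ (2 ^ (m + 1) - (m + 1 + 1)) *
          ∑ k ∈ Fintype.piFinset (fun _ : Fin (m + 1) => A),
            mn R ((m + 1 + 1).factorial * P.coeff (m + 1 + 1) * ∏ i, (k i : ℝ)) := by
          rw [← Finset.mul_sum, ← mul_assoc, ← pow_add, h5]
          congr 1
          exact reindex m A (fun z => mn R ((m + 2).factorial * P.coeff (m + 2) * z))

theorem thm : G_DIFF := by
  intro n R hn hR P hP u v h
  obtain ⟨m, rfl⟩ : ∃ m, n = m + 1 := ⟨n - 1, by omega⟩
  exact main R hR m P hP u v h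

end Pool.Agent.Helper42.KS.PkDIFF

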